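import Pool.Agent.W672.FK.Lowf

/-!
# EC/FAM2: coprime pairs give curves with full rational 2-torsion (light imports)
-/

set_option autoImplicit false

namespace Pool.Agent.N279.EC

open Finset Pool.Agent.W307.RT Pool.Agent.W672.FK

/-- the coefficients -/
def ccL (A B : ℤ) : ℤ × ℤ :=
  (-3 * (A ^ 2 - A * B + B ^ 2), (A + B) * (2 * A - B) * (2 * B - A))

theorem ccL_comm (A B : ℤ) : ccL A B = ccL B A := by
  unfold ccL
  refine Prod.ext ?_ ?_
  · simp only; ring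
  · simp only; ring

theorem ccL_cg (a b : ℕ) : ccL a b = cg (a, b) := by
  unfold ccL cg
  refine Prod.ext ?_ ?_
  · simp only
  · simp only; ring

theorem ccL_inj {a b a' b' : ℤ} (hb : 1 ≤ b) (hab : b < a) (hb' : 1 ≤ b') (hab' : b' < a')
    (h : ccL a b = ccL a' b') : a = a' ∧ b = b' := by
  unfold ccL at h
  rw [Prod.mk.injEq] at h
  refine cg_inj hb hab hb' hab' h.1 ?_
  linear_combination h.2

theorem fam2 : ∃ K : ℕ, ∀ X H : ℕ, K * X ^ 6 ≤ H →
    (∀ A B : ℕ, 1 ≤ A → A ≤ X → 1 ≤ B → B ≤ X → A.Coprime B → A ≠ B → ccL A B ∈ Cv 2 H) ∧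
    ∀ c : ℤ × ℤ,
      ((Icc 1 X ×ˢ Icc 1 X).filter (fun t : ℕ × ℕ => ccL t.1 t.2 = c)).card ≤ 6 := by
  refine ⟨2000000, fun X H hH => ⟨?_, ?_⟩⟩
  · intro A B hA hAX hB hBX hc hne
    rcases lt_or_gt_of_ne hne with h | h
    · rw [ccL_comm, ccL_cg]
      exact mem_cv2 hA h hBX hc.symm hH
    · rw [ccL_cg]
      exact mem_cv2 hB h hAX hc hH
  · intro c
    have h1 : ((Icc 1 X ×ˢ Icc 1 X).filter (fun t : ℕ × ℕ => ccL t.1 t.2 = c)) ⊆
        (((Icc 1 X ×ˢ Icc 1 X).filter (fun t : ℕ × ℕ => ccL t.1 t.2 = c)).filter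
          (fun t => t.2 < t.1)) ∪
        ((((Icc 1 X ×ˢ Icc 1 X).filter (fun t : ℕ × ℕ => ccL t.1 t.2 = c)).filter
          (fun t => t.1 < t.2)) ∪
        (((Icc 1 X ×ˢ Icc 1 X).filter (fun t : ℕ × ℕ => ccL t.1 t.2 = c)).filter
          (fun t => t.1 = t.2))) := by
      intro t ht
      rw [mem_union, mem_union]
      rcases lt_trichotomy t.1 t.2 with h | h | h
      · exact Or.inr (Or.inl (mem_filter.2 ⟨ht, h⟩))
      · exact Or.inr (Or.inr (mem_filter.2 ⟨ht, h⟩))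
      · exact Or.inl (mem_filter.2 ⟨ht, h⟩)
    have e1 : (((Icc 1 X ×ˢ Icc 1 X).filter (fun t : ℕ × ℕ => ccL t.1 t.2 = c)).filter
          (fun t => t.2 < t.1)).card ≤ 1 := by
      rw [card_le_one]
      intro t ht t' ht'
      rw [mem_filter, mem_filter, mem_product, mem_Icc, mem_Icc] at ht ht'
      obtain ⟨⟨⟨k1, k2⟩, k3⟩, k4⟩ := ht
      obtain ⟨⟨⟨k1', k2'⟩, k3'⟩, k4'⟩ := ht'
      obtain ⟨e1, e2⟩ := ccL_inj (by exact_mod_cast k2.1) (by exact_mod_cast k4)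
        (by exact_mod_cast k2'.1) (by exact_mod_cast k4') (k3.trans k3'.symm)
      exact Prod.ext (by exact_mod_cast e1) (by exact_mod_cast e2)
    have e2 : (((Icc 1 X ×ˢ Icc 1 X).filter (fun t : ℕ × ℕ => ccL t.1 t.2 = c)).filter
          (fun t => t.1 < t.2)).card ≤ 1 := by
      rw [card_le_one]
      intro t ht t' ht'
      rw [mem_filter, mem_filter, mem_product, mem_Icc, mem_Icc] at ht ht'
      obtain ⟨⟨⟨k1, k2⟩, k3⟩, k4⟩ := ht
      obtain ⟨⟨⟨k1', k2'⟩, k3'⟩, k4'⟩ := ht'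
      rw [ccL_comm] at k3 k3'
      obtain ⟨e1, e2⟩ := ccL_inj (by exact_mod_cast k1.1) (by exact_mod_cast k4)
        (by exact_mod_cast k1'.1) (by exact_mod_cast k4') (k3.trans k3'.symm)
      exact Prod.ext (by exact_mod_cast e2) (by exact_mod_cast e1)
    have e3 : (((Icc 1 X ×ˢ Icc 1 X).filter (fun t : ℕ × ℕ => ccL t.1 t.2 = c)).filter
          (fun t => t.1 = t.2)).card ≤ 1 := by
      rw [card_le_one]
      rintro ⟨a, b⟩ ht ⟨a', b'⟩ ht'
      rw [mem_filter, mem_filter, mem_product, mem_Icc, mem_Icc] at ht ht'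
      obtain ⟨⟨⟨k1, k2⟩, k3⟩, k4⟩ := ht
      obtain ⟨⟨⟨k1', k2'⟩, k3'⟩, k4'⟩ := ht'
      simp only at k1 k2 k3 k4 k1' k2' k3' k4'
      subst k4
      subst k4'
      have h2 := k3.trans k3'.symm
      unfold ccL at h2
      rw [Prod.mk.injEq] at h2
      have h3 : (a : ℤ) ^ 2 = (a' : ℤ) ^ 2 := by
        have h6 := h2.1
        ring_nf at h6
        omega
      have h4 : a ^ 2 = a' ^ 2 := by exact_mod_cast h3
      have h5 : a = a' := Nat.pow_left_injective (n := 2) (by norm_num) h4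
      rw [h5]
    have e4 := card_le_card h1
    have e5 := card_union_le (((Icc 1 X ×ˢ Icc 1 X).filter
      (fun t : ℕ × ℕ => ccL t.1 t.2 = c)).filter (fun t => t.2 < t.1))
      ((((Icc 1 X ×ˢ Icc 1 X).filter (fun t : ℕ × ℕ => ccL t.1 t.2 = c)).filter
          (fun t => t.1 < t.2)) ∪
        (((Icc 1 X ×ˢ Icc 1 X).filter (fun t : ℕ × ℕ => ccL t.1 t.2 = c)).filter
          (fun t => t.1 = t.2)))
    have e6 := card_union_le (((Icc 1 X ×ˢ Icc 1 X).filter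
      (fun t : ℕ × ℕ => ccL t.1 t.2 = c)).filter (fun t => t.1 < t.2))
        (((Icc 1 X ×ˢ Icc 1 X).filter (fun t : ℕ × ℕ => ccL t.1 t.2 = c)).filter
          (fun t => t.1 = t.2))
    omega

end Pool.Agent.N279.EC
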