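import Pool.Agent.N870.EC.Stm
import Pool.Agent.N279.EC.Fam2L

/-!
# EC/FAM2
-/

set_option autoImplicit false

namespace Pool.Agent.N279.EC

theorem t_FAM2 : Pool.Agent.N870.EC.S_FAM2 := fam2

end Pool.Agent.N279.EC
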